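import Pool.Agent.Q273.CV.Gen

/-!
# The law for the rational points of the line from the law for divisors
-/

set_option autoImplicit false

namespace Q273.CV

open Polynomial

/-- the linear form with the zero `(u : v)` -/
noncomputable def lf (u v : ℤ) : ℤ[X] := C v * X - C u

lemma lf_natDegree {u v : ℤ} (hv : v ≠ 0) : (lf u v).natDegree = 1 := by
  unfold lf
  rw [sub_eq_add_neg, ← C_neg]
  exact natDegree_linear hv

lemma lf_ne {u v : ℤ} (hv : v ≠ 0) : lf u v ≠ 0 := by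
  intro h
  have := lf_natDegree (u := u) hv
  rw [h, natDegree_zero] at this
  omega

lemma lf_map (u v : ℤ) : (lf u v).map (Int.castRingHom ℚ) = C (v : ℚ) * X - C (u : ℚ) := by
  unfold lf
  simp

lemma res_lf (f : ℤ[X]) {u v : ℤ} (hv : v ≠ 0) :
    resultant f (lf u v) f.natDegree 1 = (-1) ^ f.natDegree * Q273.QP.hv u v f := by
  have hv' : (v : ℚ) ≠ 0 := by exact_mod_cast hv
  have h1 : ((resultant f (lf u v) f.natDegree 1 : ℤ) : ℚ) =
      resultant (f.map (Int.castRingHom ℚ)) ((lf u v).map (Int.castRingHom ℚ)) f.natDegree 1 := by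
    rw [resultant_map_map]
    rfl
  have h2 : (lf u v).map (Int.castRingHom ℚ) = C (v : ℚ) * (X - C ((u : ℚ) / v)) := by
    rw [lf_map, mul_sub, ← C_mul, mul_div_cancel₀ _ hv']
  have h3 : (f.map (Int.castRingHom ℚ)).natDegree ≤ f.natDegree := natDegree_map_le
  rw [h2, resultant_C_mul_right, resultant_X_sub_C_right _ _ _ h3] at h1
  have h4 : ((resultant f (lf u v) f.natDegree 1 : ℤ) : ℚ) =
      (((-1) ^ f.natDegree * Q273.QP.hv u v f : ℤ) : ℚ) := by
    rw [h1, mul_left_comm]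
    push_cast
    congr 1
    unfold Q273.QP.hv
    rw [eval_map, eval₂_eq_sum_range, Finset.mul_sum]
    push_cast
    refine Finset.sum_congr rfl fun i hi => ?_
    have hi' : i ≤ f.natDegree := Nat.lt_succ_iff.1 (Finset.mem_range.1 hi)
    have h5 : (v : ℚ) ^ f.natDegree = (v : ℚ) ^ i * (v : ℚ) ^ (f.natDegree - i) := by
      rw [← pow_add, Nat.add_sub_cancel' hi']
    rw [h5, div_pow]
    simp only [eq_intCast]
    field_simp
  exact_mod_cast h4

variable {q : ℕ} {u v : Fin q → ℤ}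

/-- the divisor -/
noncomputable def GG (u v : Fin q → ℤ) : ℤ[X] := ∏ i, lf (u i) (v i)

lemma GG_natDegree (hv : ∀ i, v i ≠ 0) : (GG u v).natDegree = q := by
  unfold GG
  rw [natDegree_prod _ _ fun i _ => lf_ne (hv i), Finset.sum_congr rfl fun i _ =>
    lf_natDegree (hv i)]
  simp

lemma GG_sq (hv : ∀ i, v i ≠ 0) (hd : ∀ i j, i ≠ j → u i * v j - u j * v i ≠ 0) :
    Squarefree ((GG u v).map (Int.castRingHom ℚ)) := by
  have h1 : (GG u v).map (Int.castRingHom ℚ) = ∏ i, (C (v i : ℚ) * X - C (u i : ℚ)) := by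
    unfold GG
    rw [Polynomial.map_prod]
    exact Finset.prod_congr rfl fun i _ => lf_map _ _
  rw [h1]
  apply Separable.squarefree
  refine separable_prod' (fun i _ j _ hij => ?_) fun i _ => ?_
  · have hc : ((u j : ℚ) * v i - u i * v j) ≠ 0 := by
      have := hd j i (Ne.symm hij)
      exact_mod_cast this
    refine ⟨C ((v j : ℚ) / ((u j : ℚ) * v i - u i * v j)),
      -C ((v i : ℚ) / ((u j : ℚ) * v i - u i * v j)), ?_⟩
    have e : C ((v j : ℚ) / ((u j : ℚ) * v i - u i * v j)) * (C (v i : ℚ) * X - C (u i : ℚ)) +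
        -C ((v i : ℚ) / ((u j : ℚ) * v i - u i * v j)) * (C (v j : ℚ) * X - C (u j : ℚ)) =
        C (((u j : ℚ) * v i - u i * v j) / ((u j : ℚ) * v i - u i * v j)) := by
      have e2 : ∀ t : ℚ, C t = algebraMap ℚ ℚ[X] t := fun t => rfl
      rw [div_eq_mul_inv, div_eq_mul_inv, div_eq_mul_inv]
      simp only [C_mul, C_sub]
      ring
    rw [e, div_self hc, C_1]
  · have hc : (v i : ℚ) ≠ 0 := by exact_mod_cast hv i
    refine ⟨0, C ((v i : ℚ)⁻¹), ?_⟩
    have e : derivative (C (v i : ℚ) * X - C (u i : ℚ)) = C (v i : ℚ) := by simp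
    rw [e, zero_mul, zero_add, ← C_mul, inv_mul_cancel₀ hc, C_1]

lemma GG_res (f : ℤ[X]) (hv : ∀ i, v i ≠ 0) :
    resultant f (GG u v) f.natDegree q =
      ∏ i, ((-1) ^ f.natDegree * Q273.QP.hv (u i) (v i) f) := by
  have h1 := resultant_prod_right Finset.univ f (fun i => lf (u i) (v i)) f.natDegree le_rfl
    (Finset.prod_ne_zero_iff.2 fun i _ => leadingCoeff_ne_zero.2 (lf_ne (hv i)))
  have h2 : (∏ i, lf (u i) (v i)).natDegree = q := GG_natDegree hv
  rw [h2] at h1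
  unfold GG
  rw [h1]
  refine Finset.prod_congr rfl fun i _ => ?_
  rw [lf_natDegree (hv i)]
  exact res_lf f (hv i)

lemma sum_bu {ι α : Type} [DecidableEq α] (s : Finset ι) (t : ι → Finset α) (g : α → ℝ)
    (hg : ∀ a, 0 ≤ g a) : ∑ a ∈ s.biUnion t, g a ≤ ∑ i ∈ s, ∑ a ∈ t i, g a := by
  classical
  induction s using Finset.induction_on with
  | empty => simp
  | insert b s hb ih =>
    rw [Finset.biUnion_insert, Finset.sum_insert hb]
    have h1 := Finset.sum_union_inter (s₁ := t b) (s₂ := s.biUnion t) (f := g)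
    have h2 : 0 ≤ ∑ a ∈ t b ∩ s.biUnion t, g a := Finset.sum_nonneg fun a _ => hg a
    linarith

lemma GG_N1 (f : ℤ[X]) (hv : ∀ i, v i ≠ 0) (S : Finset ℕ) (h0 : ∀ i, Q273.QP.hv (u i) (v i) f ≠ 0) :
    Q273.TR.N1 S q (GG u v) f ≤ ∑ i, Q273.QP.N1 S (u i) (v i) f := by
  classical
  unfold Q273.TR.N1 Q273.QP.N1
  rw [← Finset.sum_div]
  refine div_le_div_of_nonneg_right ?_ (Nat.cast_nonneg _)
  rw [GG_res f hv]
  have h1 : (∏ i, ((-1) ^ f.natDegree * Q273.QP.hv (u i) (v i) f)).natAbs.primeFactors \ S ⊆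
      Finset.univ.biUnion fun i : Fin q => (Q273.QP.hv (u i) (v i) f).natAbs.primeFactors \ S := by
    intro p hp
    rw [Finset.mem_sdiff, Nat.mem_primeFactors] at hp
    obtain ⟨⟨hp1, hp2, _⟩, hpS⟩ := hp
    rw [Finset.mem_biUnion]
    have h2 : (p : ℤ) ∣ ∏ i, ((-1) ^ f.natDegree * Q273.QP.hv (u i) (v i) f) :=
      Int.natCast_dvd.2 hp2
    obtain ⟨i, _, hi⟩ := Prime.exists_mem_finset_dvd (Nat.prime_iff_prime_int.1 hp1) h2
    refine ⟨i, Finset.mem_univ _, ?_⟩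
    rw [Finset.mem_sdiff, Nat.mem_primeFactors]
    refine ⟨⟨hp1, ?_, Int.natAbs_ne_zero.2 (h0 i)⟩, hpS⟩
    have h3 : IsUnit ((-1 : ℤ) ^ f.natDegree) := (isUnit_one.neg).pow _
    exact Int.natCast_dvd.1 ((h3.dvd_mul_left).1 hi)
  refine (Finset.sum_le_sum_of_subset_of_nonneg h1 fun p _ _ => Real.log_natCast_nonneg p).trans ?_
  exact sum_bu _ _ _ fun p => Real.log_natCast_nonneg p

lemma GG_aeval {f : ℤ[X]} {x : ℂ} (hf : aeval x f = 0) (hv : ∀ i, v i ≠ 0)
    (h0 : ∀ i, Q273.QP.hv (u i) (v i) f ≠ 0) : aeval x (GG u v) ≠ 0 := by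
  unfold GG
  rw [map_prod]
  refine Finset.prod_ne_zero_iff.2 fun i _ h => h0 i ?_
  have hvi : ((v i : ℤ) : ℂ) ≠ 0 := by exact_mod_cast hv i
  have h1 : x = (u i : ℂ) / v i := by
    have h' : (v i : ℂ) * x - (u i : ℂ) = 0 := by
      unfold lf at h
      simpa using h
    rw [eq_div_iff hvi]
    linear_combination h'
  have h2 : ((Q273.QP.hv (u i) (v i) f : ℤ) : ℂ) = (v i : ℂ) ^ f.natDegree * aeval x f := by
    unfold Q273.QP.hv
    rw [aeval_eq_sum_range, Finset.mul_sum]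
    push_cast
    refine Finset.sum_congr rfl fun j hj => ?_
    have hj' : j ≤ f.natDegree := Nat.lt_succ_iff.1 (Finset.mem_range.1 hj)
    have h5 : (v i : ℂ) ^ f.natDegree = (v i : ℂ) ^ j * (v i : ℂ) ^ (f.natDegree - j) := by
      rw [← pow_add, Nat.add_sub_cancel' hj']
    rw [h5, h1, div_pow, zsmul_eq_mul]
    field_simp
  rw [hf, mul_zero] at h2
  exact_mod_cast h2

/-- the points near the real number `ξ` -/
def goodR (ξ : ℝ) (s q : ℕ) (f : ℤ[X]) (x : ℂ) : Prop :=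
  f.natDegree = s ∧
    (((max (s + 1) (3 * q) : ℕ) : ℝ) - 2) * Q273.QP.height f ≤ Q273.TR.prox ξ f + Q273.QP.logDisc x

theorem lawG_tr {ξ : ℝ} {s q : ℕ} (hpart : ∀ (G : ℤ[X]) (S : Finset ℕ), Q273.TR.IsPair q G S →
    ∀ ε : ℝ, 0 < ε → ∃ C : ℝ, ∀ (f : ℤ[X]) (x : ℂ), Q273.TR.IsPoint s G f x →
      Q273.TR.prox ξ f + (q * Q273.TR.height f - Q273.TR.N1 S q G f) ≤
        (((max (s + 1) (3 * q) : ℕ) : ℝ) + ε) * Q273.TR.height f + C) :
    LawG q (goodR ξ s q) := by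
  intro S u v hS hcop hv hd ε hε
  obtain ⟨C, hC⟩ := hpart (GG u v) S ⟨GG_sq hv hd, (GG_natDegree hv).le, by
    rw [GG_natDegree hv]; omega, hS⟩ ε hε
  refine ⟨C, fun f x hf hx hgood h0 => ?_⟩
  have h1 := hC f x ⟨hf, hgood.1, hx, GG_aeval hx hv h0⟩
  have h2 := GG_N1 f hv S h0
  have h3 := hgood.2
  have h4 : Q273.TR.height f = Q273.QP.height f := rfl
  rw [h4] at h1
  rw [Finset.sum_sub_distrib, Finset.sum_const, Finset.card_univ, Fintype.card_fin, nsmul_eq_mul]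
  linarith

end Q273.CV
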