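import Pool.Agent.Q273.CV.Tr1
import Pool.Agent.Q273.CV.TrLaw
import Pool.Agent.Q273.QP.All

/-!
# Final form of the theorems on the points of curves above points near an adele
-/

set_option autoImplicit false
set_option linter.unusedSectionVars false

namespace Q273.CV

open MeasureTheory NumberField IsDedekindDomain NumberField.mixedEmbedding
open NumberField.InfinitePlace Polynomial
open Q273.AD (FinAd prA)

theorem height_poly' {K : Type} [Field K] [NumberField K] {x : K} {f : ℤ[X]}
    (hf : Irreducible f) (hx : aeval x f = 0) (hd : f.natDegree = Module.finrank ℚ K) :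
    height x = Q273.QP.height f := by
  by_cases h0 : x = 0
  · subst h0
    have h1 : f.coeff 0 = 0 := by
      rw [← Polynomial.coeff_zero_eq_aeval_zero'] at hx
      have h2 : (algebraMap ℤ K) (f.coeff 0) = 0 := hx
      have h3 : ((f.coeff 0 : ℤ) : K) = 0 := h2
      exact_mod_cast h3
    obtain ⟨c, hc⟩ := Polynomial.X_dvd_iff.2 h1
    have hcu : IsUnit c := (hf.isUnit_or_isUnit hc).resolve_left Polynomial.not_isUnit_X
    obtain ⟨e, he, hec⟩ := Polynomial.isUnit_iff.1 hcu
    have h4 : Q273.QP.height f = 0 := by
      unfold Q273.QP.height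
      have he1 : ‖(e : ℂ)‖ = 1 := by
        rcases Int.isUnit_iff.1 he with h | h <;> simp [h]
      have h5 : (f.map (Int.castRingHom ℂ)).mahlerMeasure = 1 := by
        have he2 : (e : ℂ) ≠ 0 := by
          intro h
          rw [h, norm_zero] at he1
          exact zero_ne_one he1
        have h6 : f.map (Int.castRingHom ℂ) = C (e : ℂ) * X + C 0 := by
          rw [hc, ← hec, Polynomial.map_mul, Polynomial.map_X, Polynomial.map_C, C_0, add_zero,
            mul_comm]
          rfl
        rw [h6, Polynomial.mahlerMeasure_C_mul_X_add_C he2, norm_zero, he1]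
        norm_num
      rw [h5, Real.log_one, zero_div]
    rw [h4]
    unfold height
    have h5 : ∀ w : InfinitePlace K, (w.mult : ℝ) * Real.log (max 1 (w (0 : K))) = 0 := by
      intro w
      simp
    have h6 : ∀ v : HeightOneSpectrum (𝓞 K),
        Real.log (max 1 (FinitePlace.mk v (0 : K))) = 0 := by
      intro v
      rw [map_zero]
      simp
    rw [Finset.sum_congr rfl fun w _ => h5 w, Finset.sum_const_zero, finsum_congr h6, finsum_zero]
    simp
  · exact Pool.Agent.Q14.CV.height_poly h0 hf hx hd

end Q273.CV
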