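import Pool.Agent.Q14.CV.Cv2
import Pool.Agent.Q273.TR.Fin

/-!
# The points of curves above algebraic points of the line: deduction from a law for the line
-/

set_option autoImplicit false

namespace Q273.CV

open IsDedekindDomain NumberField Polynomial
open Pool.Agent.Q14.CV

/-- the height inequality for the rational points `(u_i : v_i)` at the points in `good` -/
def LawG (q : ℕ) (good : ℤ[X] → ℂ → Prop) : Prop :=
  ∀ (S : Finset ℕ) (u v : Fin q → ℤ), (∀ p ∈ S, p.Prime) → (∀ i, IsCoprime (u i) (v i)) →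
    (∀ i, v i ≠ 0) → (∀ i j, i ≠ j → u i * v j - u j * v i ≠ 0) → ∀ ε : ℝ, 0 < ε → ∃ C : ℝ,
      ∀ (f : ℤ[X]) (x : ℂ), Irreducible f → aeval x f = 0 → good f x →
        (∀ i, Q273.QP.hv (u i) (v i) f ≠ 0) →
          ∑ i, (Q273.QP.height f - Q273.QP.N1 S (u i) (v i) f) + (-2) * Q273.QP.height f ≤
            Q273.QP.logDisc x + ε * Q273.QP.height f + C

theorem cvg {q : ℕ} {good : ℤ[X] → ℂ → Prop} (hw : LawG q good) (hq : 1 ≤ q)
    (A : Type) [CommRing A] [IsDedekindDomain A]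
    [Algebra ℚ A] [Algebra ℚ[X] A] [IsScalarTower ℚ ℚ[X] A] [Module.Finite ℚ[X] A]
    [FaithfulSMul ℚ[X] A] (a : Fin q → ℚ) (u : Fin q → ℕ)
    (y : ∀ j, Fin (u j + 1) → A) (hF : Fibres A a u y) (ε : ℝ) (hε : 0 < ε) : ∃ C : ℝ,
      ∀ (K : Type) [Field K] [NumberField K] (x : K) (f : ℤ[X]) (ψ : K →ₐ[ℚ] ℂ),
      Irreducible f → f.natDegree = Module.finrank ℚ K → Polynomial.aeval x f = 0 →
      (∀ j, x ≠ (a j : K)) → good f (ψ x) →
      ∀ (L : Type) [Field L] [NumberField L] [Algebra K L] (φ : A →+* L) (S : Finset ℕ),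
        φ (coord A) = algebraMap K L x → (∀ p ∈ S, p.Prime) →
          proximity S u y L φ + canonical u y * height x ≤
            logDisc L + ε * height x + ∑ p ∈ S, Real.log p + C := by
  classical
  obtain ⟨ha, hy0, hyr⟩ := hF
  have hq0 : 0 < q := by omega
  obtain ⟨M, G, C₁, hM, hG, hC₁, hmas⟩ :=
    Pool.Agent.Q183.VC.master hq0 a u y hy0 hyr (κ := ε / 3) (by positivity)
  obtain ⟨C₂, hC₂, htriv⟩ := Pool.Agent.Q183.VC.W_le a u y hy0
  have hGX : G * X ≠ 0 := mul_ne_zero hG X_ne_zero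
  obtain ⟨H₀, hH₀, hroots⟩ := roots_bound hGX
  have hdet : ∀ i j, i ≠ j → (a i).num * ((a j).den : ℤ) - (a j).num * ((a i).den : ℤ) ≠ 0 := by
    intro i j hij h
    apply hij
    apply ha
    rw [Rat.eq_iff_mul_eq_mul]
    linear_combination h
  obtain ⟨S', hS'⟩ : ∃ S' : Finset ℕ, S' = M.primeFactors ∪ Finset.univ.biUnion
    (fun i : Fin q => Finset.univ.biUnion fun j : Fin q =>
      ((a i).num * ((a j).den : ℤ) - (a j).num * ((a i).den : ℤ)).natAbs.primeFactors) := ⟨_, rfl⟩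
  have hS'p : ∀ p ∈ S', p.Prime := by
    intro p hp
    rw [hS', Finset.mem_union, Finset.mem_biUnion] at hp
    rcases hp with hp | ⟨i, -, hp⟩
    · exact Nat.prime_of_mem_primeFactors hp
    · rw [Finset.mem_biUnion] at hp
      obtain ⟨j, -, hp⟩ := hp
      exact Nat.prime_of_mem_primeFactors hp
  have hSS : M.primeFactors ⊆ S' := by
    rw [hS']
    exact Finset.subset_union_left
  have hdS : ∀ i j, i ≠ j → ∀ p : ℕ, p.Prime →
      (p : ℤ) ∣ (a i).num * ((a j).den : ℤ) - (a j).num * ((a i).den : ℤ) → p ∈ S' := by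
    intro i j hij p hp hdvd
    rw [hS', Finset.mem_union]
    right
    rw [Finset.mem_biUnion]
    refine ⟨i, Finset.mem_univ _, ?_⟩
    rw [Finset.mem_biUnion]
    refine ⟨j, Finset.mem_univ _, ?_⟩
    rw [Nat.mem_primeFactors]
    exact ⟨hp, Int.natCast_dvd.1 hdvd, Int.natAbs_ne_zero.2 (hdet i j hij)⟩
  have hcop : ∀ j, IsCoprime (a j).num ((a j).den : ℤ) :=
    fun j => Pool.Agent.W223.AC.pt_coprime (a j)
  obtain ⟨C₄, hC₄⟩ := hw S' (fun j => (a j).num) (fun j => ((a j).den : ℤ)) hS'p hcop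
    (fun j => by exact_mod_cast (a j).den_nz) hdet (ε / 3) (by positivity)
  refine ⟨C₁ + C₂ + |C₄| + (q * H₀ + |canonical u y| * H₀), ?_⟩
  intro K _ _ x f ψ hf hdeg hxf hxa hpr L _ _ _ φ S hφ hS
  obtain ⟨n, hn⟩ : ∃ n : ℝ, n = Module.finrank ℚ K := ⟨_, rfl⟩
  have hn0 : 0 < n := by rw [hn]; exact_mod_cast Module.finrank_pos
  obtain ⟨m, hm⟩ : ∃ m : ℝ, m = Module.finrank K L := ⟨_, rfl⟩
  have hm0 : 0 < m := by rw [hm]; exact_mod_cast Module.finrank_pos
  have htow : (Module.finrank ℚ L : ℝ) = n * m := by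
    rw [hn, hm]
    exact_mod_cast (Module.finrank_mul_finrank ℚ K L).symm
  have hnm : 0 < n * m := mul_pos hn0 hm0
  have hz0 : ∀ j, φ (y j 0) ≠ 0 := by
    intro j h
    rw [hy0 j, map_sub, hφ, sub_eq_zero] at h
    apply hxa j
    apply FaithfulSMul.algebraMap_injective K L
    rw [h, map_ratCast]
    exact eq_ratCast (φ.comp ((algebraMap ℚ[X] A).comp Polynomial.C)) (a j)
  have hh0 : 0 ≤ height x := height_nonneg x
  have hR : 0 ≤ ∑ p ∈ S, Real.log p := Finset.sum_nonneg fun p _ => Real.log_natCast_nonneg _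
  have hdL : logDisc L = Real.log |(discr L : ℝ)| / (n * m) := by
    rw [← htow]
    rfl
  have hdL0 : 0 ≤ logDisc L := by
    unfold logDisc
    refine div_nonneg (Real.log_nonneg ?_) (Nat.cast_nonneg _)
    have h1 : (1 : ℤ) ≤ |discr L| := Int.one_le_abs (discr_ne_zero L)
    exact_mod_cast h1
  have hprox := proximity_eq S u y L φ hz0
  rw [htow] at hprox
  have hεh : 0 ≤ ε * height x := mul_nonneg hε.le hh0
  have hC4 : 0 ≤ |C₄| := abs_nonneg _
  have hqH : 0 ≤ (q : ℝ) * H₀ + |canonical u y| * H₀ := by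
    have := abs_nonneg (canonical u y)
    positivity
  by_cases hGx : aeval x (G * X) = 0
  · have h1 := hroots K x hGx
    have htr : proximity S u y L φ ≤ q * height x + C₂ := by
      have h2 := htriv K x hxa L φ S hφ
      rw [← hm, htow, height_eq x, ← hn] at h2
      rw [hprox, div_le_iff₀ hnm]
      linarith [h2]
    have h6 : canonical u y * height x ≤ |canonical u y| * H₀ :=
      (mul_le_mul_of_nonneg_right (le_abs_self _) hh0).trans
        (mul_le_mul_of_nonneg_left h1 (abs_nonneg _))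
    have h7 : (q : ℝ) * height x ≤ q * H₀ := mul_le_mul_of_nonneg_left h1 (Nat.cast_nonneg _)
    linarith
  · rw [map_mul, aeval_X] at hGx
    have hx0 : x ≠ 0 := fun h => hGx (by rw [h, mul_zero])
    have hGx' : aeval x G ≠ 0 := fun h => hGx (by rw [h, zero_mul])
    have hheight := height_poly hx0 hf hxf hdeg
    obtain ⟨-, h1⟩ := hmas K x hxa hGx' L φ S hφ hS
    rw [← hm, htow, height_eq x, ← hn] at h1
    obtain ⟨N, hN⟩ : ∃ N, N = Pool.Agent.W223.VD.cnt M.primeFactors
      (fun j => Pool.Agent.W223.AC.pt (a j)) x := ⟨_, rfl⟩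
    have hval : ∀ j, Q273.QP.hv (a j).num ((a j).den : ℤ) f ≠ 0 := fun j =>
      hv_ne hf hxf hdeg (hxa j)
    have htr := Pool.Agent.W598.VD.TR.t Pool.Agent.W74.VD.GL.t K q M.primeFactors S'
      (fun j => Pool.Agent.W223.AC.pt (a j)) x f (Q227.QP.adjoin_top hf hxf hdeg) hf hdeg hxf
      (fun j => hcop j) hSS (fun i j hij p hp hdvd => hdS i j hij p hp hdvd) hS'p
      (fun j => hval j)
    rw [← hN] at htr h1
    have hZ : Real.log (∏ j, (Pool.Agent.H813R3.Voj.rho S' (Pool.Agent.H813R3.Voj.value f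
        (Pool.Agent.W223.AC.pt (a j))) : ℝ)) =
        n * ∑ j, Q273.QP.N1 S' (a j).num ((a j).den : ℤ) f := by
      rw [Real.log_prod, Finset.mul_sum]
      · refine Finset.sum_congr rfl fun j _ => ?_
        unfold Q273.QP.N1
        rw [hdeg, ← hn, mul_div_cancel₀ _ hn0.ne']
        have h2 : Pool.Agent.H813R3.Voj.value f (Pool.Agent.W223.AC.pt (a j)) =
          Q273.QP.hv (a j).num ((a j).den : ℤ) f := rfl
        rw [h2]
        unfold Pool.Agent.H813R3.Voj.rho
        rw [Nat.cast_prod, Real.log_prod]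
        intro p hp
        have h3 := (Nat.prime_of_mem_primeFactors (Finset.mem_sdiff.1 hp).1).ne_zero
        exact_mod_cast h3
      · intro j _
        have h3 := (Pool.Agent.H813R3.Voj.rho_pos S' (Pool.Agent.H813R3.Voj.value f
          (Pool.Agent.W223.AC.pt (a j)))).ne'
        exact_mod_cast h3
    rw [hZ] at htr
    -- the law
    obtain ⟨hz, hdisc⟩ := Q273.QP.logDisc_emb ψ x f hf hdeg hxf
    have hlaw := hC₄ f (ψ x) hf hz hpr hval
    rw [hdisc, Finset.sum_sub_distrib, Finset.sum_const, Finset.card_univ, Fintype.card_fin,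
      nsmul_eq_mul, ← hheight, ← hn] at hlaw
    have hcan : canonical u y = q - 2 - (∑ j, (Module.finrank ℚ
      (A ⧸ Ideal.span (Set.range (y j))) : ℝ)) / Module.finrank ℚ[X] A := rfl
    have h3 := combine2 hn0 hm0 hε.le hh0 h1 htr hlaw
    rw [← hcan] at h3
    rw [hdL, hprox]
    have h4 := le_abs_self C₄
    linarith

end Q273.CV
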