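import Pool.Agent.Q273.CV.Stm

/-!
# The inequality without epsilon at almost every adelic target
-/

set_option autoImplicit false
set_option linter.unusedSectionVars false

namespace Q273.CV

open MeasureTheory NumberField IsDedekindDomain Finset Pool.Agent.H691R3 Height
open Pool.Agent.W232.VA NumberField.mixedEmbedding NumberField.InfinitePlace
open Pool.Agent.Results.MP_4d5ce1_nt.ExceptionalSetExponents (counting)
open Q273.MV (Pts kap hh VS VS_count vec expo_nonneg finP)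
open Q273.AD (FinAd LawPA prA up1A fae')

variable {K : Type} [Field K] [NumberField K]

open scoped Classical in
theorem lawEA [MeasurableSpace (FinAd K 1)] [BorelSpace (FinAd K 1)]
    (μ : Measure (FinAd K 1)) [IsFiniteMeasure μ] [μ.IsAddLeftInvariant] :
    ∀ᵐ p : (Fin 1 → mixedSpace K) × FinAd K 1 ∂(volume.prod μ),
      ∀ (q : ℕ), 3 ≤ q → ∀ α : Fin q → K × K, Pts α →
      ∀ T : Set (HeightOneSpectrum (𝓞 K)), T.Finite →
      ∀ (V : Finset (HeightOneSpectrum (𝓞 K))) (c ε : ℝ), 0 < ε →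
        {x : K | (∀ l, x * (α l).2 - 1 * (α l).1 ≠ 0) ∧
          (Q273.MV.expo q + ε) * hh x ≤ prA V p (fun _ => x) ∧
          counting T α x < ((q : ℝ) - 2) *
            Pool.Agent.Results.MP_4d5ce1_nt.ExceptionalSetExponents.height x + c}.Finite := by
  have : Countable K := Q273.Apx.countable_numberField K
  have : Countable {T : Set (HeightOneSpectrum (𝓞 K)) // T.Finite} :=
    Q273.Apx.countable_finite_sets K
  let ι : Type := (Σ q : ℕ, {α : Fin q → K × K // 3 ≤ q ∧ Pts α}) ×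
    {T : Set (HeightOneSpectrum (𝓞 K)) // T.Finite} × ℕ
  have key : ∀ i : ι, ∀ᵐ p : (Fin 1 → mixedSpace K) × FinAd K 1 ∂(volume.prod μ),
      ∀ V : Finset (HeightOneSpectrum (𝓞 K)), ∀ ε : ℝ, 0 < ε → ∃ C : ℝ,
      ∀ x ∈ VS i.2.1.1 i.1.2.1 (i.2.2 : ℝ),
        ((1 : ℕ) : ℝ) * prA V p (fun _ => x) ≤
          (Q273.MV.expo i.1.1 + ε) * Real.log (mulHeight (vec x)) + C := by
    rintro ⟨⟨q, α, hq, hα⟩, ⟨T, hT⟩, c⟩
    exact up1A fae' (n := 1) le_rfl μ (fun (x : K) (_ : Fin 1) => x)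
      (fun x => mulHeight (vec x)) (VS T α (c : ℝ))
      (fun x _ => one_le_mulHeight _) (s := Q273.MV.expo q) (expo_nonneg q)
      (fun δ hδ => VS_count hT hq hα c δ hδ)
  filter_upwards [ae_all_iff.2 key] with p hp
  intro q hq α hα T hT V c ε hε
  obtain ⟨N, hN⟩ := exists_nat_ge c
  obtain ⟨C, hC⟩ := hp ⟨⟨q, α, hq, hα⟩, ⟨T, hT⟩, N⟩ V (ε / 2) (by positivity)
  refine (finP hT (by omega) hα (2 * C / ε)).subset ?_
  rintro x ⟨h1, h2, h3⟩
  refine ⟨h1, ?_⟩
  have h4 := hC x ⟨h1, by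
    show counting T α x < ((q : ℝ) - 2) *
      Pool.Agent.Results.MP_4d5ce1_nt.ExceptionalSetExponents.height x + (N : ℝ)
    linarith⟩
  rw [Nat.cast_one, one_mul] at h4
  have e : Real.log (mulHeight (vec x)) = hh x := rfl
  rw [e] at h4
  have h5 : (Q273.MV.expo q + ε) * hh x ≤ (Q273.MV.expo q + ε / 2) * hh x + C := h2.trans h4
  rw [le_div_iff₀ hε]
  linarith

end Q273.CV
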