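import Pool.Agent.Q273.AD.P1
import Pool.Agent.Q273.MV.P10
import Pool.Agent.Q273.QP.LawStm

/-!
# Points of curves above points of the line near an adele: definitions and statements
-/

set_option autoImplicit false

namespace Q273.CV

open IsDedekindDomain NumberField MeasureTheory NumberField.mixedEmbedding
open scoped Polynomial
open Q273.AD (FinAd LawPA prA)
open Q273.MV (Pts kap expo hh)
open Pool.Agent.Results.MP_4d5ce1_nt.ExceptionalSetExponents (counting)

/-- The absolute logarithmic Weil height `h(x)`. -/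
noncomputable def height {K : Type} [Field K] [NumberField K] (x : K) : ℝ :=
  (1 / (Module.finrank ℚ K : ℝ)) *
    ((∑ w : InfinitePlace K, (w.mult : ℝ) * Real.log (max 1 (w x))) +
      ∑ᶠ v : HeightOneSpectrum (𝓞 K), Real.log (max 1 (FinitePlace.mk v x)))

/-- the function `f` -/
noncomputable def coord (A : Type) [CommRing A] [Algebra ℚ[X] A] : A := algebraMap ℚ[X] A .X

/-- `max (0, - log max_i c_i)` -/
noncomputable def minusLog {s : ℕ} (c : Fin (s + 1) → ℝ) : ℝ := max 0 (-Real.log (⨆ i, c i))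

open Classical in
/-- The proximity function `m_S(F, P)`: the sum over the infinite places `w` (with
`mult w = [L_w : ℝ]`) and the primes `v` above the primes of `S` of the local heights
`∑_j max (0, - log max_i |y_{j i}(P)|)`, divided by `[L : ℚ]`. The absolute values are normalised
so that the product formula holds: `|b|_v = N(v) ^ (- v(b))`. -/
noncomputable def proximity {A : Type} [CommRing A] (S : Finset ℕ) {q : ℕ}
    (u : Fin q → ℕ) (y : ∀ j, Fin (u j + 1) → A)
    (L : Type) [Field L] [NumberField L] (φ : A →+* L) : ℝ :=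
  ((∑ w : InfinitePlace L, (w.mult : ℝ) * ∑ j, minusLog (fun i => w (φ (y j i)))) +
    ∑ᶠ v : HeightOneSpectrum (𝓞 L), if ∃ p ∈ S, (p : 𝓞 L) ∈ v.asIdeal then
      ∑ j, minusLog (fun i => FinitePlace.mk v (φ (y j i))) else 0) / Module.finrank ℚ L

/-- The logarithmic discriminant `d(L) = log |disc L| / [L : ℚ]`. -/
noncomputable def logDisc (L : Type) [Field L] [NumberField L] : ℝ :=
  Real.log |(NumberField.discr L : ℝ)| / Module.finrank ℚ L

/-- `q - 2 - (∑_j dim (A / (y_{j 0}, y_{j 1}, …))) / N`, where `N` is the rank of `A` over `ℚ[f]`: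
the number `(deg K_C) / N`. -/
noncomputable def canonical {A : Type} [CommRing A] [Algebra ℚ A] [Algebra ℚ[X] A] {q : ℕ}
    (u : Fin q → ℕ) (y : ∀ j, Fin (u j + 1) → A) : ℝ :=
  q - 2 - (∑ j, (Module.finrank ℚ (A ⧸ Ideal.span (Set.range (y j))) : ℝ)) / Module.finrank ℚ[X] A

/-- the `y_{j i}` generate ideals between the ideals `(f - a_j)` and their radicals -/
def Fibres (A : Type) [CommRing A] [Algebra ℚ A] [Algebra ℚ[X] A] {q : ℕ}
    (a : Fin q → ℚ) (u : Fin q → ℕ) (y : ∀ j, Fin (u j + 1) → A) : Prop :=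
  Function.Injective a ∧ (∀ j, y j 0 = coord A - algebraMap ℚ[X] A (.C (a j))) ∧
    ∀ j i, y j i ∈ (Ideal.span {coord A - algebraMap ℚ[X] A (.C (a j))}).radical

open scoped Classical in
/-- job CV1: the points above the elements of a fixed number field -/
def S_CV1 : Prop :=
  ∀ (K : Type) [Field K] [NumberField K] (p : (Fin 1 → mixedSpace K) × FinAd K 1),
    (∀ (q : ℕ), 2 ≤ q → ∀ α : Fin q → K × K, Pts α →
      ∀ T : Set (HeightOneSpectrum (𝓞 K)), T.Finite → LawPA p T α (kap q)) →
    (∀ (q : ℕ), 3 ≤ q → ∀ α : Fin q → K × K, Pts α →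
      ∀ T : Set (HeightOneSpectrum (𝓞 K)), T.Finite →
      ∀ (V : Finset (HeightOneSpectrum (𝓞 K))) (c ε : ℝ), 0 < ε →
        {x : K | (∀ l, x * (α l).2 - 1 * (α l).1 ≠ 0) ∧
          (expo q + ε) * hh x ≤ prA V p (fun _ => x) ∧
          counting T α x < ((q : ℝ) - 2) *
            Pool.Agent.Results.MP_4d5ce1_nt.ExceptionalSetExponents.height x + c}.Finite) →
    ∀ (V : Finset (HeightOneSpectrum (𝓞 K))) (A : Type) [CommRing A] [IsDedekindDomain A]
      [Algebra ℚ A] [Algebra ℚ[X] A] [IsScalarTower ℚ ℚ[X] A] [Module.Finite ℚ[X] A]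
      [FaithfulSMul ℚ[X] A] (q : ℕ) (a : Fin q → ℚ) (u : Fin q → ℕ)
      (y : ∀ j, Fin (u j + 1) → A), 2 ≤ q → Fibres A a u y → ∀ ε : ℝ, 0 < ε → ∃ C : ℝ,
      ∀ x : K, (∀ j, x ≠ (a j : K)) →
      ∀ (L : Type) [Field L] [NumberField L] [Algebra K L] (φ : A →+* L) (S : Finset ℕ),
        φ (coord A) = algebraMap K L x → (∀ p ∈ S, p.Prime) →
        ((3 ≤ q ∧ (expo q + ε) * height x ≤ prA V p (fun _ => x) / Module.finrank ℚ K) →
          proximity S u y L φ + canonical u y * height x ≤
            logDisc L - logDisc K + ε * height x + ∑ p ∈ S, Real.log p + C) ∧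
        ((q = 2 ∨ (2 - kap q + ε) * height x ≤ prA V p (fun _ => x) / Module.finrank ℚ K) →
          prA V p (fun _ => x) / Module.finrank ℚ K + proximity S u y L φ +
              canonical u y * height x ≤
            logDisc L - logDisc K + ε * height x + ∑ p ∈ S, Real.log p + C)

/-- job CV2: the points above all quadratic points -/
def S_CV2 : Prop :=
  ∀ (V : Finset Nat.Primes) (w : ℝ × Q273.QP.ZHat), Q273.QP.Law4 V w →
    ∀ (A : Type) [CommRing A] [IsDedekindDomain A]
      [Algebra ℚ A] [Algebra ℚ[X] A] [IsScalarTower ℚ ℚ[X] A] [Module.Finite ℚ[X] A]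
      [FaithfulSMul ℚ[X] A] (q : ℕ) (a : Fin q → ℚ) (u : Fin q → ℕ)
      (y : ∀ j, Fin (u j + 1) → A), 1 ≤ q → Fibres A a u y → ∀ ε : ℝ, 0 < ε → ∃ C : ℝ,
      ∀ (K : Type) [Field K] [NumberField K] (x : K) (f : ℤ[X]), Module.finrank ℚ K ≤ 2 →
      Irreducible f → f.natDegree = Module.finrank ℚ K → Polynomial.aeval x f = 0 →
      (∀ j, x ≠ (a j : K)) →
      (3 * (q : ℝ) - 2) * Q273.QP.height f ≤ (q + 2) * Q273.QP.prox V w f →
      ∀ (L : Type) [Field L] [NumberField L] [Algebra K L] (φ : A →+* L) (S : Finset ℕ),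
        φ (coord A) = algebraMap K L x → (∀ p ∈ S, p.Prime) →
          proximity S u y L φ + canonical u y * height x ≤
            logDisc L + ε * height x + ∑ p ∈ S, Real.log p + C

end Q273.CV
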