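import Pool.Agent.Q14.CV.Cv1
import Pool.Agent.Q273.CV.LawE

/-!
# Adelic points of the affine line
-/

set_option autoImplicit false
set_option linter.unusedSectionVars false

namespace Q273.CV

open MeasureTheory NumberField IsDedekindDomain NumberField.mixedEmbedding
open NumberField.InfinitePlace
open Q273.AD (FinAd)

/-- the integral finite adeles -/
abbrev FinAd1 (K : Type) [Field K] [NumberField K] : Type :=
  (v : HeightOneSpectrum (𝓞 K)) → v.adicCompletionIntegers K

/-- the identification of the two forms -/
def gm (K : Type) [Field K] [NumberField K] : FinAd1 K →+ FinAd K 1 where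
  toFun η v _ := η v
  map_zero' := rfl
  map_add' _ _ := rfl

open scoped Classical in
theorem ae_tr {K : Type} [Field K] [NumberField K] [MeasurableSpace (FinAd1 K)]
    [BorelSpace (FinAd1 K)] (μ : Measure (FinAd1 K)) [IsFiniteMeasure μ] [μ.IsAddLeftInvariant]
    {P : (Fin 1 → mixedSpace K) × FinAd K 1 → Prop}
    (h : ∀ [MeasurableSpace (FinAd K 1)] [BorelSpace (FinAd K 1)] (μ' : Measure (FinAd K 1))
      [IsFiniteMeasure μ'] [μ'.IsAddLeftInvariant], ∀ᵐ p ∂(volume.prod μ'), P p) :
    ∀ᵐ p : mixedSpace K × FinAd1 K ∂(volume.prod μ), P (fun _ => p.1, gm K p.2) := by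
  letI : MeasurableSpace (FinAd K 1) := borel _
  haveI : BorelSpace (FinAd K 1) := ⟨rfl⟩
  have hcont : Continuous (gm K) := continuous_pi fun v => continuous_pi fun _ => continuous_apply v
  have hm : Measurable (gm K) := hcont.measurable
  have hs : Function.Surjective (gm K) := fun η => ⟨fun v => η v 0, by
    funext v i
    rw [Fin.fin_one_eq_zero i]
    rfl⟩
  haveI : IsFiniteMeasure (μ.map (gm K)) := Measure.isFiniteMeasure_map μ _
  haveI : (μ.map (gm K)).IsAddLeftInvariant := isAddLeftInvariant_map (gm K).toAddHom hm hs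
  have h1 := h (μ.map (gm K))
  have h2 : Measure.map (fun (ξ : mixedSpace K) (_ : Fin 1) => ξ) volume =
      (volume : Measure (Fin 1 → mixedSpace K)) :=
    ((volume_preserving_funUnique (Fin 1) (mixedSpace K)).symm).map_eq
  have hf : Measurable (fun (ξ : mixedSpace K) (_ : Fin 1) => ξ) :=
    measurable_pi_lambda _ fun _ => measurable_id
  rw [← h2, Measure.map_prod_map _ _ hf hm] at h1
  exact ae_of_ae_map (hf.prodMap hm).aemeasurable h1

end Q273.CV
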